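import Pool.Agent.H14.BL.FTL
import Pool.Agent.H2.FEX.OMB
import Pool.Agent.H25.BL.BLT
import Pool.Agent.H3.BL.B35
import Pool.Agent.H31.BL.TTL
import Pool.Agent.H34.BL.LPN
import Pool.Agent.H37.BL.LPH
import Pool.Agent.H40.SHA.SRD
import Pool.Agent.H42.BL.CHO
import Pool.Agent.H44.BL.MOMG
import Pool.Agent.H44.RIC.CNT
import Pool.Agent.H49.MED.RTN
import Pool.Agent.H51.BL.AEN
import Pool.Agent.H51.BL.SUB
import Pool.Agent.H62.BL.LP1
import Pool.Agent.H64.BL.HOL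
import Pool.Agent.H65.BL.CLW
import Pool.Agent.H65.BL.LAY
import Pool.Agent.H71.BL.CHE
import Pool.Agent.H71.BL.CTL
import Pool.Agent.H72.BL.RND
import Pool.Agent.H91.BL.ENQ
import Pool.Agent.H99.MED.RTS

/-! # BL: assembly with a small cone -/

set_option autoImplicit false

namespace Pool.BL.A21

theorem cnt : Pool.RIC.S_CNT := Pool.RIC.cnt_thm Pool.SHA.srd_thm

theorem enq : S_ENQ :=
  enq_thm hol_thm (momg_thm (Pool.MED.rtn_thm Pool.MED.rts_thm) Pool.FEX.omb_thm) lay_thm cnt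

theorem clw : S_CLW :=
  clw_thm lay_thm (ttl_thm cnt) (ctl_thm enq lay_thm cnt) (ftl_thm aen_thm lay_thm cnt) rnd_thm
    (che_thm (cho_thm sub_thm lph_thm lp1_thm lpn_thm))

/-- at most `C X ^ (3 / 5 + ε)` triples with `RR v ≤ X`, `RR v ≤ v.1 + v.2 ≤ RR v ^ κ` -/
theorem b35 : S_B35 := b35_thm clw

/-- the same by height -/
theorem blt : S_BLT := blt_thm clw

end Pool.BL.A21
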